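import Pool.Agent.Y395.RS.Stm

set_option autoImplicit false

namespace Pool.Agent.Y528.RS.BINOM

open Finset Pool.Agent.Y395.RS

theorem central (k : ℕ) : (2 * k + 1) * Nat.centralBinom k ^ 2 ≤ 16 ^ k := by
  induction k with
  | zero => simp
  | succ k ih =>
    have h := Nat.succ_mul_centralBinom_succ k
    have h1 : (k + 1) ^ 2 * ((2 * (k + 1) + 1) * Nat.centralBinom (k + 1) ^ 2) ≤
        (k + 1) ^ 2 * 16 ^ (k + 1) := by
      calc (k + 1) ^ 2 * ((2 * (k + 1) + 1) * Nat.centralBinom (k + 1) ^ 2)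
          = (2 * (k + 1) + 1) * ((k + 1) * Nat.centralBinom (k + 1)) ^ 2 := by ring
        _ = (2 * (k + 1) + 1) * (2 * (2 * k + 1) * Nat.centralBinom k) ^ 2 := by rw [h]
        _ = 4 * ((2 * k + 3) * (2 * k + 1)) * ((2 * k + 1) * Nat.centralBinom k ^ 2) := by ring
        _ ≤ 4 * ((2 * k + 3) * (2 * k + 1)) * 16 ^ k := Nat.mul_le_mul_left _ ih
        _ ≤ 4 * (4 * (k + 1) ^ 2) * 16 ^ k := by
          apply Nat.mul_le_mul_right
          apply Nat.mul_le_mul_left
          nlinarith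
        _ = (k + 1) ^ 2 * 16 ^ (k + 1) := by ring
    exact Nat.le_of_mul_le_mul_left h1 (by positivity)

theorem middle (s : ℕ) : (s.choose (s / 2)) ^ 2 * (s + 1) ≤ 4 ^ s := by
  rcases Nat.even_or_odd' s with ⟨k, rfl | rfl⟩
  · have h := central k
    rw [Nat.mul_div_cancel_left _ (by norm_num : 0 < 2)]
    have e : (2 * k).choose k = Nat.centralBinom k := (Nat.centralBinom_eq_two_mul_choose k).symm
    rw [e, pow_mul]
    norm_num
    linarith
  · have h := central (k + 1)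
    have e1 : (2 * k + 1) / 2 = k := by omega
    rw [e1]
    have e2 : Nat.centralBinom (k + 1) = 2 * (2 * k + 1).choose k := by
      rw [Nat.centralBinom_eq_two_mul_choose]
      have h1 : 2 * (k + 1) = (2 * k + 1) + 1 := by ring
      rw [h1, Nat.choose_succ_succ]
      have h2 : (2 * k + 1).choose (k + 1) = (2 * k + 1).choose k := Nat.choose_symm_half k
      simp only [Nat.succ_eq_add_one]
      rw [h2]
      ring
    rw [e2] at h
    have h3 : 4 * ((2 * k + 1).choose k ^ 2 * (2 * k + 1 + 1)) ≤ 4 * 4 ^ (2 * k + 1) := by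
      calc 4 * ((2 * k + 1).choose k ^ 2 * (2 * k + 1 + 1))
          ≤ (2 * (k + 1) + 1) * (2 * (2 * k + 1).choose k) ^ 2 := by
            have : 0 ≤ (2 * k + 1).choose k ^ 2 := Nat.zero_le _
            nlinarith
        _ ≤ 16 ^ (k + 1) := h
        _ = 4 * 4 ^ (2 * k + 1) := by
          rw [show (16 : ℕ) = 4 ^ 2 by norm_num, ← pow_mul]
          ring
    exact Nat.le_of_mul_le_mul_left h3 (by norm_num)

theorem main : BINOM := by
  intro s j
  have h0 : (s.choose j : ℝ) ≤ (s.choose (s / 2) : ℝ) := by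
    exact_mod_cast Nat.choose_le_middle j s
  refine h0.trans ?_
  have hs : (0 : ℝ) ≤ (s : ℝ) + 1 := by positivity
  rw [le_div_iff₀ (Real.sqrt_pos.2 (by positivity))]
  have h1 : ((s.choose (s / 2) : ℝ) * Real.sqrt (s + 1)) ^ 2 ≤ (2 ^ s) ^ 2 := by
    rw [mul_pow, Real.sq_sqrt hs]
    have h2 : ((s.choose (s / 2)) ^ 2 * (s + 1) : ℕ) ≤ 4 ^ s := middle s
    have h3 : ((s.choose (s / 2) : ℝ)) ^ 2 * ((s : ℝ) + 1) ≤ 4 ^ s := by exact_mod_cast h2
    refine h3.trans (le_of_eq ?_)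
    rw [← pow_mul, mul_comm, pow_mul]
    norm_num
  exact (pow_le_pow_iff_left₀ (by positivity) (by positivity) two_ne_zero).1 h1

end Pool.Agent.Y528.RS.BINOM
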