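import Pool.Agent.Y395.RS.Stm

set_option autoImplicit false

namespace Pool.Agent.Y528.RS.CLOS

open Finset Pool.Agent.Y395.RS

theorem nb_mono {V : Type} [DecidableEq V] (G : SimpleGraph V) {A B : Finset V} (h : A ⊆ B)
    (x : V) : nb G A x ⊆ nb G B x := by
  intro y hy
  rw [mem_nb] at hy ⊢
  exact ⟨h hy.1, hy.2⟩

/-- closed sets -/
def Good {V : Type} (G : SimpleGraph V) (S Q : Finset V) : Prop :=
  ∀ x ∈ Q, (nb G S x).card ≤ 3 * (nb G Q x).card

/-- bounded potential -/
def Pot {V : Type} [DecidableEq V] (G : SimpleGraph V) (S L : Finset V) (b : ℕ)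
    (R : Finset V) : Prop :=
  3 * ∑ x ∈ R, (nb G (S \ R) x).card + (b + 1) * (R \ L).card ≤ 3 * b * L.card

theorem main : CLOS := by
  intro V _ _ G S L b hLS hbig hsmall
  classical
  obtain ⟨Q, hQ, hmax⟩ := Finset.exists_max_image
    ((S \ L).powerset.filter (fun Q => Good G S Q)) Finset.card
    ⟨∅, by
      rw [mem_filter, mem_powerset]
      exact ⟨empty_subset _, fun a ha => absurd ha (notMem_empty a)⟩⟩
  rw [mem_filter, mem_powerset] at hQ
  have hQS : Q ⊆ S := hQ.1.trans sdiff_subset
  have hQL : Disjoint Q L := disjoint_of_subset_left hQ.1 sdiff_disjoint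
  have hLQ : L ⊆ S \ Q := by
    intro x hx
    rw [mem_sdiff]
    exact ⟨hLS hx, fun h => disjoint_left.1 hQL h hx⟩
  refine ⟨Q, hQS, hQL, ?_, ?_⟩
  · intro x hx
    have h1 := hQ.2 x hx
    have h2 := hbig x (hQS hx) (fun h => disjoint_left.1 hQL hx h)
    omega
  -- the maximal set with bounded potential
  obtain ⟨R, hR, hRmax⟩ := Finset.exists_max_image
    ((S \ Q).powerset.filter (fun R => L ⊆ R ∧ Pot G S L b R)) Finset.card
    ⟨L, by
      rw [mem_filter, mem_powerset]
      refine ⟨hLQ, subset_rfl, ?_⟩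
      unfold Pot
      rw [Finset.sdiff_self, card_empty, mul_zero, add_zero, mul_assoc]
      apply Nat.mul_le_mul_left
      calc ∑ x ∈ L, (nb G (S \ L) x).card ≤ ∑ x ∈ L, b := by
            apply sum_le_sum
            intro x hx
            exact (card_le_card (nb_mono G sdiff_subset x)).trans (hsmall x hx)
        _ = b * L.card := by rw [sum_const, smul_eq_mul, mul_comm]⟩
  rw [mem_filter, mem_powerset] at hR
  obtain ⟨hRS, hLR, hRP⟩ := hR
  have hReq : R = S \ Q := by
    by_contra hne
    have hUne : ((S \ Q) \ R).Nonempty := by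
      rw [nonempty_iff_ne_empty]
      intro h
      exact hne (Subset.antisymm hRS (sdiff_eq_empty_iff_subset.1 h))
    have hex : ∃ x ∈ (S \ Q) \ R, 3 * (nb G (S \ R) x).card < (nb G S x).card := by
      by_contra hcon
      push Not at hcon
      have h1 := hmax (S \ R) (by
        rw [mem_filter, mem_powerset]
        refine ⟨sdiff_subset_sdiff subset_rfl hLR, ?_⟩
        intro x hx
        by_cases hxQ : x ∈ Q
        · refine (hQ.2 x hxQ).trans (Nat.mul_le_mul_left _ (card_le_card (nb_mono G ?_ x)))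
          intro y hy
          rw [mem_sdiff]
          exact ⟨hQS hy, fun h => (mem_sdiff.1 (hRS h)).2 hy⟩
        · rw [mem_sdiff] at hx
          exact hcon x (by
            rw [mem_sdiff, mem_sdiff]
            exact ⟨⟨hx.1, hxQ⟩, hx.2⟩))
      obtain ⟨u, hu⟩ := hUne
      rw [mem_sdiff, mem_sdiff] at hu
      have h2 : Q ⊂ S \ R := by
        rw [ssubset_iff_of_subset (by
          intro y hy
          rw [mem_sdiff]
          exact ⟨hQS hy, fun h => (mem_sdiff.1 (hRS h)).2 hy⟩)]
        exact ⟨u, mem_sdiff.2 ⟨hu.1.1, hu.2⟩, hu.1.2⟩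
      have h3 := card_lt_card h2
      omega
    obtain ⟨x, hx, h1⟩ := hex
    rw [mem_sdiff, mem_sdiff] at hx
    have hxL : x ∉ L := fun h => hx.2 (hLR h)
    have hD := hbig x hx.1.1 hxL
    -- the sum of the two parts
    have h2 : (nb G S x).card ≤ (nb G R x).card + (nb G (S \ R) x).card := by
      refine (card_le_card (t := nb G R x ∪ nb G (S \ R) x) ?_).trans (card_union_le _ _)
      intro y hy
      rw [mem_nb] at hy
      rw [mem_union, mem_nb, mem_nb, mem_sdiff]
      by_cases h : y ∈ R
      · exact Or.inl ⟨h, hy.2⟩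
      · exact Or.inr ⟨⟨hy.1, h⟩, hy.2⟩
    have h3 : ∀ y ∈ R, (nb G (S \ insert x R) y).card + (if G.Adj x y then 1 else 0) ≤
        (nb G (S \ R) y).card := by
      intro y _
      by_cases h : G.Adj x y
      · rw [if_pos h]
        have hx' : x ∉ nb G (S \ insert x R) y := by
          rw [mem_nb, mem_sdiff]
          exact fun h => h.1.2 (mem_insert_self _ _)
        rw [← card_insert_of_notMem hx']
        apply card_le_card
        intro z hz
        rw [mem_nb, mem_sdiff]
        rcases mem_insert.1 hz with hz | hz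
        · rw [hz]
          exact ⟨⟨hx.1.1, hx.2⟩, h.symm⟩
        · rw [mem_nb, mem_sdiff] at hz
          exact ⟨⟨hz.1.1, fun h4 => hz.1.2 (mem_insert_of_mem h4)⟩, hz.2⟩
      · rw [if_neg h, add_zero]
        exact card_le_card (nb_mono G (sdiff_subset_sdiff subset_rfl (subset_insert _ _)) y)
    have h4 := sum_le_sum h3
    rw [sum_add_distrib] at h4
    have h5 : ∑ y ∈ R, (if G.Adj x y then 1 else 0) = (nb G R x).card := by
      rw [← card_filter]
      congr 1
    rw [h5] at h4
    have h6 : (nb G (S \ insert x R) x).card ≤ (nb G (S \ R) x).card :=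
      card_le_card (nb_mono G (sdiff_subset_sdiff subset_rfl (subset_insert _ _)) x)
    have h7 : (insert x R \ L).card = (R \ L).card + 1 := by
      rw [insert_sdiff_of_notMem _ hxL, card_insert_of_notMem (fun h => hx.2 (mem_sdiff.1 h).1)]
    have h8 := hRmax (insert x R) (by
      rw [mem_filter, mem_powerset]
      refine ⟨insert_subset (mem_sdiff.2 hx.1) hRS, hLR.trans (subset_insert _ _), ?_⟩
      unfold Pot at hRP ⊢
      rw [sum_insert hx.2, h7, Nat.mul_add (b + 1), mul_one]
      omega)
    rw [card_insert_of_notMem hx.2] at h8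
    omega
  rw [← hReq]
  have h9 : (b + 1) * (R \ L).card ≤ (b + 1) * (3 * L.card) := by
    unfold Pot at hRP
    calc (b + 1) * (R \ L).card ≤ 3 * b * L.card := by omega
      _ ≤ (b + 1) * (3 * L.card) := by nlinarith
  have h10 : (R \ L).card ≤ 3 * L.card := Nat.le_of_mul_le_mul_left h9 (by omega)
  have h11 : R.card = (R \ L).card + L.card := (card_sdiff_add_card_eq_card hLR).symm
  omega

end Pool.Agent.Y528.RS.CLOS
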