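import Pool.Agent.Y395.RS.Stm

set_option autoImplicit false

namespace Pool.Agent.Y528.RS.CORE1

open Finset Pool.Agent.Y395.RS

theorem nb_mono {V : Type} [DecidableEq V] (G : SimpleGraph V) {A B : Finset V} (h : A ⊆ B)
    (x : V) : nb G A x ⊆ nb G B x := by
  intro y hy
  rw [mem_nb] at hy ⊢
  exact ⟨h hy.1, hy.2⟩

/-- all members have at least `k` neighbours in the set -/
def Good {V : Type} (G : SimpleGraph V) (k : ℕ) (Y : Finset V) : Prop :=
  ∀ y ∈ Y, k ≤ (nb G Y y).card

theorem main : CORE1 := by
  intro V _ _ G k hk
  classical
  obtain ⟨Y, hY, hmax⟩ := Finset.exists_max_image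
    ((univ : Finset (Finset V)).filter (fun Y => Good G k Y)) Finset.card
    ⟨∅, by
      rw [mem_filter]
      exact ⟨mem_univ _, fun a ha => absurd ha (notMem_empty a)⟩⟩
  rw [mem_filter] at hY
  have hY' : Good G k Y := hY.2
  -- the property (P)
  have hP : ∀ U : Finset V, U.Nonempty → Disjoint U Y →
      ∃ x ∈ U, (nb G (U ∪ Y) x).card < k := by
    intro U hU hd
    by_contra hcon
    push Not at hcon
    have h1 := hmax (U ∪ Y) (by
      rw [mem_filter]
      refine ⟨mem_univ _, ?_⟩
      intro y hy
      rcases mem_union.1 hy with h | h
      · exact hcon y h
      · exact (hY' y h).trans (card_le_card (nb_mono G subset_union_right y)))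
    rw [card_union_of_disjoint hd] at h1
    have := card_pos.2 hU
    omega
  refine ⟨Y, hY', ?_, ?_, ?_⟩
  · intro v hv
    obtain ⟨x, hx, h1⟩ := hP {v} (singleton_nonempty v) (disjoint_singleton_left.2 hv)
    rw [mem_singleton] at hx
    subst hx
    exact lt_of_le_of_lt (card_le_card (nb_mono G subset_union_right x)) h1
  · intro U
    induction U using Finset.strongInduction with
    | _ U ih =>
      intro hd
      rcases U.eq_empty_or_nonempty with rfl | hU
      · exact ⟨∅, subset_rfl, fun x hx => absurd hx (notMem_empty x), by simp⟩
      · obtain ⟨x, hx, h1⟩ := hP U hU hd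
        have hsub : U \ insert x (nb G U x) ⊂ U := by
          rw [ssubset_iff_of_subset sdiff_subset]
          exact ⟨x, hx, fun h => (mem_sdiff.1 h).2 (mem_insert_self _ _)⟩
        obtain ⟨I, hI, hind, hc⟩ := ih _ hsub (disjoint_of_subset_left sdiff_subset hd)
        have hxI : x ∉ I := fun h => (mem_sdiff.1 (hI h)).2 (mem_insert_self _ _)
        have hadj : ∀ y ∈ I, ¬ G.Adj x y := by
          intro y hy h
          have h2 := mem_sdiff.1 (hI hy)
          exact h2.2 (mem_insert_of_mem ((mem_nb G U x y).2 ⟨h2.1, h⟩))
        refine ⟨insert x I, insert_subset hx (hI.trans sdiff_subset), ?_, ?_⟩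
        · intro a ha b hb
          rcases mem_insert.1 ha with ha | ha
          · rcases mem_insert.1 hb with hb | hb
            · rw [ha, hb]
              exact fun h => G.loopless.irrefl x h
            · rw [ha]
              exact hadj b hb
          · rcases mem_insert.1 hb with hb | hb
            · rw [hb]
              exact fun h => hadj a ha h.symm
            · exact hind a ha b hb
        · rw [card_insert_of_notMem hxI]
          have h2 : U.card ≤ (U \ insert x (nb G U x)).card + (insert x (nb G U x)).card := by
            have := card_le_card (show U ⊆ (U \ insert x (nb G U x)) ∪ insert x (nb G U x) by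
              intro z hz
              rw [mem_union, mem_sdiff]
              by_cases h : z ∈ insert x (nb G U x)
              · exact Or.inr h
              · exact Or.inl ⟨hz, h⟩)
            exact this.trans (card_union_le _ _)
          have h3 := card_insert_le x (nb G U x)
          have h4 : (nb G U x).card < k :=
            lt_of_le_of_lt (card_le_card (nb_mono G subset_union_left x)) h1
          rw [Nat.mul_add, mul_one]
          omega
  · have key : ∀ U : Finset V, Disjoint U Y →
        ∑ x ∈ U, (nb G (U ∪ Y) x).card ≤ 2 * k * U.card := by
      intro U
      induction U using Finset.strongInduction with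
      | _ U ih =>
        intro hd
        rcases U.eq_empty_or_nonempty with rfl | hU
        · simp
        · obtain ⟨x, hx, h1⟩ := hP U hU hd
          have ih1 := ih (U.erase x) (erase_ssubset hx) (disjoint_of_subset_left (erase_subset _ _) hd)
          have h2 : ∀ y ∈ U.erase x, (nb G (U ∪ Y) y).card ≤
              (nb G (U.erase x ∪ Y) y).card + (if G.Adj x y then 1 else 0) := by
            intro y _
            by_cases h : G.Adj x y
            · rw [if_pos h]
              have : nb G (U ∪ Y) y ⊆ insert x (nb G (U.erase x ∪ Y) y) := by
                intro z hz
                rw [mem_nb, mem_union] at hz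
                rw [mem_insert, mem_nb, mem_union, mem_erase]
                by_cases hzx : z = x
                · exact Or.inl hzx
                · rcases hz.1 with h3 | h3
                  · exact Or.inr ⟨Or.inl ⟨hzx, h3⟩, hz.2⟩
                  · exact Or.inr ⟨Or.inr h3, hz.2⟩
              exact (card_le_card this).trans (card_insert_le _ _)
            · rw [if_neg h, add_zero]
              apply card_le_card
              intro z hz
              rw [mem_nb, mem_union] at hz
              rw [mem_nb, mem_union, mem_erase]
              have hzx : z ≠ x := by
                rintro rfl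
                exact h hz.2.symm
              rcases hz.1 with h3 | h3
              · exact ⟨Or.inl ⟨hzx, h3⟩, hz.2⟩
              · exact ⟨Or.inr h3, hz.2⟩
          have h3 : ∑ y ∈ U.erase x, (if G.Adj x y then 1 else 0) ≤ (nb G (U ∪ Y) x).card := by
            rw [← card_filter]
            apply card_le_card
            intro z hz
            rw [mem_filter, mem_erase] at hz
            rw [mem_nb, mem_union]
            exact ⟨Or.inl hz.1.2, hz.2⟩
          have h4 := sum_le_sum h2
          rw [sum_add_distrib] at h4
          have h5 : U.card = (U.erase x).card + 1 := (card_erase_add_one hx).symm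
          rw [← add_sum_erase U _ hx, h5, Nat.mul_add, mul_one]
          omega
    have h := key (univ \ Y) sdiff_disjoint
    rw [sdiff_union_of_subset (subset_univ Y)] at h
    exact h

end Pool.Agent.Y528.RS.CORE1
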