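import Pool.Agent.Y395.RS.Stm

set_option autoImplicit false

namespace Pool.Agent.Y528.RS.PAIR

open Finset Pool.Agent.Y395.RS

/-- no conflicts -/
def NoC {α : Type} (r : α → α → Prop) (I : Finset α) : Prop := ∀ a ∈ I, ∀ b ∈ I, a ≠ b → ¬ r a b

/-- a set without conflicts, greedily -/
theorem greedy {α : Type} [DecidableEq α] (r : α → α → Prop) (c : ℕ) (S : Finset α)
    (C : α → Finset α) (hC : ∀ b ∈ S, (C b).card ≤ c)
    (h : ∀ a ∈ S, ∀ b ∈ S, (a = b ∨ r a b ∨ r b a) → a ∈ C b) :
    ∃ I : Finset α, I ⊆ S ∧ (∀ a ∈ I, ∀ b ∈ I, a ≠ b → ¬ r a b) ∧ S.card ≤ c * I.card := by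
  classical
  obtain ⟨I, hI, hmax⟩ := Finset.exists_max_image
    (S.powerset.filter (fun I => NoC r I)) Finset.card
    ⟨∅, by
      rw [mem_filter, mem_powerset]
      exact ⟨empty_subset _, fun a ha => absurd ha (notMem_empty a)⟩⟩
  rw [mem_filter, mem_powerset] at hI
  refine ⟨I, hI.1, hI.2, ?_⟩
  have hsub : S ⊆ I.biUnion C := by
    intro a ha
    by_contra hn
    have hn' : ∀ b ∈ I, ¬ (a = b ∨ r a b ∨ r b a) := by
      intro b hb h1
      exact hn (mem_biUnion.2 ⟨b, hb, h a ha b (hI.1 hb) h1⟩)
    have haI : a ∉ I := fun h1 => hn' a h1 (Or.inl rfl)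
    have h2 := hmax (insert a I) (by
      rw [mem_filter, mem_powerset]
      refine ⟨insert_subset ha hI.1, ?_⟩
      intro x hx y hy hxy
      rcases mem_insert.1 hx with hx' | hx'
      · rcases mem_insert.1 hy with hy' | hy'
        · exact absurd (hx'.trans hy'.symm) hxy
        · rw [hx']
          exact fun h3 => hn' y hy' (Or.inr (Or.inl h3))
      · rcases mem_insert.1 hy with hy' | hy'
        · rw [hy']
          exact fun h3 => hn' x hx' (Or.inr (Or.inr h3))
        · exact hI.2 x hx' y hy' hxy)
    rw [card_insert_of_notMem haI] at h2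
    omega
  calc S.card ≤ (I.biUnion C).card := card_le_card hsub
    _ ≤ ∑ b ∈ I, (C b).card := card_biUnion_le
    _ ≤ ∑ b ∈ I, c := sum_le_sum fun b hb => hC b (hI.1 hb)
    _ = c * I.card := by rw [sum_const, smul_eq_mul, mul_comm]

/-- if the set `{a}` is forbidden, at most three quarters of the subsets of a set with at most two
elements are allowed -/
theorem cnt_small {α : Type} [DecidableEq α] (B : Finset α) (P : Finset α → Prop)
    (F : Finset α) (hF : F ⊆ B) (hP : ¬ P F) (k : ℕ) (hk : B.card ≤ k) :
    cnt B P ≤ (1 - (1 / 2) ^ k) * 2 ^ B.card := by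
  classical
  have h1 : (B.powerset.filter P).card ≤ (B.powerset.erase F).card := by
    apply card_le_card
    intro A hA
    rw [mem_filter] at hA
    rw [mem_erase]
    refine ⟨?_, hA.1⟩
    rintro rfl
    exact hP hA.2
  rw [card_erase_of_mem (mem_powerset.2 hF), card_powerset] at h1
  have h2 : (((B.powerset.filter P).card : ℕ) : ℝ) ≤ (2 : ℝ) ^ B.card - 1 := by
    have h3 : (B.powerset.filter P).card + 1 ≤ 2 ^ B.card := by
      have := Nat.one_le_two_pow (n := B.card)
      omega
    have h4 : ((B.powerset.filter P).card : ℝ) + 1 ≤ 2 ^ B.card := by exact_mod_cast h3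
    linarith
  rw [cnt_eq]
  refine h2.trans ?_
  have h5 : (1 / 2 : ℝ) ^ k * 2 ^ B.card ≤ 1 := by
    rw [one_div, inv_pow, inv_mul_le_iff₀ (by positivity), mul_one]
    exact pow_le_pow_right₀ (by norm_num) hk
  linarith

theorem main : PAIR := by
  intro α _ E S f m hSE hf h4 hm
  classical
  obtain ⟨I0, hI0, hind, hcard⟩ := greedy (fun a b => f a = b ∨ f a = f b) 9 S
    (fun b => insert (f b) (S.filter (fun a => f a = b) ∪ S.filter (fun a => f a = f b)))
    (by
      intro b _
      refine (card_insert_le _ _).trans ?_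
      have h1 := card_union_le (S.filter (fun a => f a = b)) (S.filter (fun a => f a = f b))
      have h2 := h4 b
      have h3 := h4 (f b)
      omega)
    (by
      intro a ha b _ h
      rw [mem_insert, mem_union, mem_filter, mem_filter]
      rcases h with h | (h | h) | (h | h)
      · right; right; exact ⟨ha, by rw [h]⟩
      · right; left; exact ⟨ha, h⟩
      · right; right; exact ⟨ha, h⟩
      · left; exact h.symm
      · right; right; exact ⟨ha, h.symm⟩)
  obtain ⟨I, hI, hIc⟩ := exists_subset_card_eq (show m ≤ I0.card by omega)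
  have key := cnt_blocks E I (fun a => ({a, f a} : Finset α).filter (fun x => x ∈ E))
    (fun a F => a ∈ F → f a ∈ F) (fun _ => 3 / 4)
    (by
      intro a _ x hx
      exact (mem_filter.1 hx).2)
    (by
      intro a ha b hb hab
      rw [disjoint_left]
      intro x hx hx'
      have h1 := (mem_filter.1 hx).1
      have h2 := (mem_filter.1 hx').1
      rw [mem_insert, mem_singleton] at h1 h2
      have h3 := hind a (hI ha) b (hI hb) hab
      have h5 := hind b (hI hb) a (hI ha) (Ne.symm hab)
      rw [not_or] at h3 h5
      rcases h1 with rfl | rfl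
      · rcases h2 with h2 | h2
        · exact hab h2
        · exact h5.1 h2.symm
      · rcases h2 with h2 | h2
        · exact h3.1 h2
        · exact h3.2 h2)
    (by
      intro a ha
      have haS := hI0 (hI ha)
      have h1 := cnt_small (({a, f a} : Finset α).filter (fun x => x ∈ E))
        (fun F => a ∈ F → f a ∈ F) {a}
        (by
          intro x hx
          rw [mem_singleton] at hx
          subst hx
          rw [mem_filter]
          exact ⟨mem_insert_self _ _, hSE haS⟩)
        (by
          intro h
          have := h (mem_singleton_self a)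
          rw [mem_singleton] at this
          exact hf a haS this) 2
        ((card_filter_le _ _).trans card_le_two)
      norm_num at h1 ⊢
      exact h1)
  rw [prod_const, hIc] at key
  refine le_trans (cnt_mono ?_) key
  intro F hF h a ha h1
  rw [mem_inter] at h1
  have h2 := h a (hI0 (hI ha)) h1.1
  rw [mem_inter, mem_filter]
  exact ⟨h2, mem_insert_of_mem (mem_singleton_self _), hF h2⟩

end Pool.Agent.Y528.RS.PAIR
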