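import Pool.Agent.Y395.RS.Stm

set_option autoImplicit false

namespace Pool.Agent.Y528.RS.WALK

open Finset Pool.Agent.Y395.RS

/-- an edge leaves every proper part of a connected set -/
theorem exit {V : Type} (G : SimpleGraph V) (K S : Finset V)
    (hK : (G.induce (K : Set V)).Connected) (hne : S.Nonempty) (hS : S ⊆ K) (hne' : S ≠ K) :
    ∃ u ∈ S, ∃ v ∈ K, v ∉ S ∧ G.Adj u v := by
  by_contra hcon
  push Not at hcon
  obtain ⟨s, hs⟩ := hne
  have h1 : ∀ (a b : (K : Set V)), (G.induce (K : Set V)).Reachable a b → (a : V) ∈ S →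
      (b : V) ∈ S := by
    intro a b hab ha
    obtain ⟨p⟩ := hab
    induction p with
    | nil => exact ha
    | cons h p ih =>
      apply ih
      by_contra hn
      have h2 := hcon _ ha _ (Finset.mem_coe.1 (Subtype.coe_prop _)) hn
      exact h2 (by simpa using h)
  apply hne'
  apply Finset.Subset.antisymm hS
  intro x hx
  exact h1 ⟨s, Finset.mem_coe.2 (hS hs)⟩ ⟨x, Finset.mem_coe.2 hx⟩ (hK.preconnected _ _) hs

/-- a detour -/
theorem detour {V : Type} [DecidableEq V] (G : SimpleGraph V) (S : Finset V) (m : ℕ) (w : ℕ → V)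
    (hw : IsW G S m w) (hc : ∀ x ∈ S, ∃ i ≤ m, w i = x) (u v : V) (hu : u ∈ S)
    (huv : G.Adj u v) :
    ∃ w' : ℕ → V, IsW G (insert v S) (m + 2) w' ∧ ∀ x ∈ insert v S, ∃ i ≤ m + 2, w' i = x := by
  obtain ⟨i0, hi0, hwi⟩ := hc u hu
  refine ⟨fun j => if j ≤ i0 then w j else if j = i0 + 1 then v else w (j - 2), ⟨?_, ?_⟩, ?_⟩
  · intro j hj
    beta_reduce
    split_ifs with h1 h2
    · exact mem_insert_of_mem (hw.1 j (h1.trans hi0))
    · exact mem_insert_self _ _
    · exact mem_insert_of_mem (hw.1 (j - 2) (by omega))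
  · intro j hj
    beta_reduce
    rcases lt_trichotomy j i0 with h | h | h
    · rw [if_pos h.le, if_pos (by omega : j + 1 ≤ i0)]
      exact hw.2 j (by omega)
    · subst h
      rw [if_pos le_rfl, if_neg (by omega), if_pos rfl, hwi]
      exact huv
    · rw [if_neg (by omega : ¬ j ≤ i0), if_neg (by omega : ¬ j + 1 ≤ i0),
        if_neg (by omega : ¬ j + 1 = i0 + 1)]
      by_cases h2 : j = i0 + 1
      · rw [if_pos h2, h2, show i0 + 1 + 1 - 2 = i0 by omega, hwi]
        exact huv.symm
      · rw [if_neg h2, show j + 1 - 2 = (j - 2) + 1 by omega]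
        exact hw.2 (j - 2) (by omega)
  · intro x hx
    rcases mem_insert.1 hx with rfl | hx
    · refine ⟨i0 + 1, by omega, ?_⟩
      beta_reduce
      rw [if_neg (by omega), if_pos rfl]
    · obtain ⟨i, hi, hwx⟩ := hc x hx
      by_cases h : i ≤ i0
      · refine ⟨i, by omega, ?_⟩
        beta_reduce
        rw [if_pos h, hwx]
      · refine ⟨i + 2, by omega, ?_⟩
        beta_reduce
        rw [if_neg (by omega), if_neg (by omega), show i + 2 - 2 = i by omega, hwx]

theorem main : WALK := by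
  intro V _ _ G K hK
  have hne : K.Nonempty := by
    obtain ⟨⟨x, hx⟩⟩ := hK.nonempty
    exact ⟨x, Finset.mem_coe.1 hx⟩
  have hpos := card_pos.2 hne
  have key : ∀ j : ℕ, j + 1 ≤ K.card → ∃ S : Finset V, S ⊆ K ∧ S.card = j + 1 ∧
      ∃ w : ℕ → V, IsW G S (2 * j) w ∧ ∀ x ∈ S, ∃ i ≤ 2 * j, w i = x := by
    intro j
    induction j with
    | zero =>
      intro _
      obtain ⟨x, hx⟩ := hne
      refine ⟨{x}, singleton_subset_iff.2 hx, card_singleton x, fun _ => x, ⟨?_, ?_⟩, ?_⟩
      · intro i _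
        exact mem_singleton_self x
      · intro i hi
        exact absurd hi (by omega)
      · intro y hy
        exact ⟨0, by omega, (mem_singleton.1 hy).symm⟩
    | succ j ih =>
      intro hj
      obtain ⟨S, hS, hSc, w, hw, hc⟩ := ih (by omega)
      obtain ⟨u, hu, v, hv, hvS, huv⟩ := exit G K S hK (card_pos.1 (by omega)) hS
        (by rintro rfl; omega)
      obtain ⟨w', hw', hc'⟩ := detour G S (2 * j) w hw hc u v hu huv
      refine ⟨insert v S, insert_subset hv hS, by rw [card_insert_of_notMem hvS, hSc], w', ?_, ?_⟩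
      · rw [show 2 * (j + 1) = 2 * j + 2 by ring]
        exact hw'
      · rw [show 2 * (j + 1) = 2 * j + 2 by ring]
        exact hc'
  obtain ⟨S, hS, hSc, w, hw, hc⟩ := key (K.card - 1) (by omega)
  have : S = K := eq_of_subset_of_card_le hS (by omega)
  subst this
  exact ⟨w, hw, hc⟩

end Pool.Agent.Y528.RS.WALK
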