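import Pool.Agent.Y395.RS.Stm

set_option autoImplicit false

namespace Pool.Agent.Y528.RS.WCNT

open Finset Pool.Agent.Y395.RS

theorem main : WCNT := by
  intro V _ _ G A m D hD
  classical
  induction m with
  | zero =>
    rw [pow_zero, mul_one]
    refine (card_le_univ _).trans ?_
    simp
  | succ m ih =>
    set S := univ.filter (fun w : Fin (m + 1 + 1) → V => (∀ i, w i ∈ A) ∧
      ∀ i : Fin (m + 1), G.Adj (w i.castSucc) (w i.succ)) with hS
    set T := univ.filter (fun w : Fin (m + 1) → V => (∀ i, w i ∈ A) ∧
      ∀ i : Fin m, G.Adj (w i.castSucc) (w i.succ)) with hT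
    let f : (Fin (m + 1 + 1) → V) → (Fin (m + 1) → V) := fun w i => w i.castSucc
    have h1 : S.card ≤ D * (S.image f).card := by
      apply Finset.card_le_mul_card_image
      intro a ha
      obtain ⟨w0, hw0, rfl⟩ := mem_image.1 ha
      rw [hS, mem_filter] at hw0
      have h2 : ((S.filter (fun w => f w = f w0)).image (fun w => w (Fin.last (m + 1)))) ⊆
          nb G A (w0 (Fin.last m).castSucc) := by
        intro y hy
        obtain ⟨w, hw, rfl⟩ := mem_image.1 hy
        rw [mem_filter, hS, mem_filter] at hw
        rw [mem_nb]
        refine ⟨hw.1.2.1 _, ?_⟩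
        have h3 := hw.1.2.2 (Fin.last m)
        have h4 : w (Fin.last m).castSucc = w0 (Fin.last m).castSucc := congrFun hw.2 (Fin.last m)
        rw [h4] at h3
        exact h3
      have h5 : ((S.filter (fun w => f w = f w0)).image
          (fun w => w (Fin.last (m + 1)))).card = (S.filter (fun w => f w = f w0)).card := by
        apply card_image_of_injOn
        intro w hw w' hw' hww
        rw [mem_coe, mem_filter] at hw hw'
        funext i
        refine Fin.lastCases ?_ (fun i => ?_) i
        · exact hww
        · exact congrFun (hw.2.trans hw'.2.symm) i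
      rw [← h5]
      exact (card_le_card h2).trans (hD _ (hw0.2.1 _))
    have h6 : S.image f ⊆ T := by
      intro a ha
      obtain ⟨w, hw, rfl⟩ := mem_image.1 ha
      rw [hS, mem_filter] at hw
      rw [hT, mem_filter]
      refine ⟨mem_univ _, fun i => hw.2.1 _, fun i => ?_⟩
      have := hw.2.2 i.castSucc
      exact this
    calc S.card ≤ D * (S.image f).card := h1
      _ ≤ D * T.card := Nat.mul_le_mul_left _ (card_le_card h6)
      _ ≤ D * (Fintype.card V * D ^ m) := Nat.mul_le_mul_left _ ih
      _ = Fintype.card V * D ^ (m + 1) := by ring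

end Pool.Agent.Y528.RS.WCNT
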